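import Pool.Agent.Y838.UB.I

/-!
# MP_31efb7_an: the optimal constant is `2 e`

* `sup_n A_p^q(n) → 2 e` as `p → 1`, uniformly in `q ∈ [p, 1]`;
* for a real number `C`, the inequality `sup_n A_p^q(n) ≤ C ^ (1 / q)` holds for all `0 < p < 1` and
  `p ≤ q ≤ 1` if and only if `C ≥ 2 e`.

The lower bound uses a hierarchical tree with `L` levels, heights `θ, θ ^ 2, …, θ ^ L` and branching
number `n ≈ θ ^ (1 / (1 - p))`. A flow between the `n ^ L` leaves which delivers one unit at each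
leaf crosses the boundaries of all clusters of all levels; weighting the levels by the same factor
`2 e log θ` (almost) gives a dual certificate, because `e x ≤ exp x`.
-/

set_option autoImplicit false

open Filter Topology

namespace Pool.Agent.Results.MP_31efb7_an.SharpConstant

open Pool.Agent.H164R3.Amen Pool.Agent.Y838.UB

theorem upper (p q : ℝ) (hp : 0 < p) (hpq : p ≤ q) (hq1 : q ≤ 1) :
    (⨆ n : ℕ, A p q n) ≤ ENNReal.ofReal ((2 * Real.exp 1) ^ (1 / q)) := by
  refine iSup_le fun n => ?_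
  rw [A]
  exact iSup_le fun M => iSup_le fun _ => iSup_le fun d => iSup_le fun hd => iSup_le fun o =>
    iSup_le fun S => iSup_le fun ho => iSup_le fun _ => am_le hp hpq hq1 hd o S ho

theorem result :
    (∀ ε : ℝ, 0 < ε → ∃ p₀ : ℝ, p₀ < 1 ∧ ∀ p q : ℝ, p₀ < p → p < 1 → p ≤ q → q ≤ 1 →
      ENNReal.ofReal (2 * Real.exp 1 - ε) ≤ (⨆ n : ℕ, A p q n) ∧
      (⨆ n : ℕ, A p q n) ≤ ENNReal.ofReal (2 * Real.exp 1 + ε)) ∧
    (∀ C : ℝ, (∀ p q : ℝ, 0 < p → p < 1 → p ≤ q → q ≤ 1 →
      (⨆ n : ℕ, A p q n) ≤ ENNReal.ofReal (C ^ (1 / q))) ↔ 2 * Real.exp 1 ≤ C) := by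
  have he : 1 ≤ Real.exp 1 := Real.one_le_exp zero_le_one
  constructor
  · intro ε hε
    have h1 := eventually_lower (c := 2 * Real.exp 1 - ε) (by linarith)
    have h2 : Tendsto (fun p : ℝ => (2 * Real.exp 1) ^ (1 / p)) (𝓝[<] 1) (𝓝 (2 * Real.exp 1)) := by
      have hid : Tendsto (fun p : ℝ => p) (𝓝[<] 1) (𝓝 1) :=
        tendsto_id.mono_left nhdsWithin_le_nhds
      have h3 : Tendsto (fun p : ℝ => 1 / p) (𝓝[<] 1) (𝓝 (1 / 1)) :=
        (tendsto_const_nhds (x := (1 : ℝ))).div hid one_ne_zero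
      rw [div_one] at h3
      have h4 := (tendsto_const_nhds (x := 2 * Real.exp 1)).rpow h3
        (Or.inl (by positivity : (2 * Real.exp 1 : ℝ) ≠ 0))
      rwa [Real.rpow_one] at h4
    have h5 := h2.eventually (gt_mem_nhds (show 2 * Real.exp 1 < 2 * Real.exp 1 + ε by linarith))
    have h6 : ∀ᶠ p : ℝ in 𝓝[<] 1, 0 < p := nhdsWithin_le_nhds (lt_mem_nhds one_pos)
    have h7 := h1.and (h5.and h6)
    rw [Filter.Eventually, mem_nhdsLT_iff_exists_Ioo_subset] at h7
    obtain ⟨p₀, hp₀, hsub⟩ := h7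
    refine ⟨p₀, hp₀, fun p q hp hp1 hpq hq1 => ?_⟩
    obtain ⟨h8, h9, h10⟩ := hsub ⟨hp, hp1⟩
    have hq : 0 < q := lt_of_lt_of_le h10 hpq
    constructor
    · exact h8.trans (iSup_mono fun n => A_mono hq hq1 n)
    · refine (upper p q h10 hpq hq1).trans (ENNReal.ofReal_le_ofReal ?_)
      refine le_trans ?_ h9.le
      exact Real.rpow_le_rpow_of_exponent_le (by linarith) (one_div_le_one_div_of_le h10 hpq)
  · intro C
    constructor
    · intro h
      by_contra hcon
      push Not at hcon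
      obtain ⟨c, hc1, hc2⟩ := exists_between (show max C 0 < 2 * Real.exp 1 from
        max_lt hcon (by positivity))
      have h1 := eventually_lower hc2
      have h6 : ∀ᶠ p : ℝ in 𝓝[<] 1, 0 < p := nhdsWithin_le_nhds (lt_mem_nhds one_pos)
      obtain ⟨p, hp1, hp2, hp3⟩ := (h1.and (h6.and self_mem_nhdsWithin)).exists
      have h2 := hp1.trans (h p 1 hp2 hp3 (le_of_lt hp3) le_rfl)
      rw [div_one, Real.rpow_one] at h2
      have hc0 : 0 < c := lt_of_le_of_lt (le_max_right _ _) hc1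
      have hC : c ≤ C := (ENNReal.ofReal_le_ofReal_iff' ).mp h2 |>.resolve_right (not_le.mpr hc0)
      exact absurd hC (not_le.mpr (lt_of_le_of_lt (le_max_left _ _) hc1))
    · intro hC p q hp _ hpq hq1
      refine (upper p q hp hpq hq1).trans (ENNReal.ofReal_le_ofReal ?_)
      exact Real.rpow_le_rpow (by positivity) hC (by have := hp.trans_le hpq; positivity)

end Pool.Agent.Results.MP_31efb7_an.SharpConstant
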