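import Pool.Agent.Y838.UB.D

/-!
# MP_31efb7_an: all amenability constants are at most `(2 e) ^ (1 / q)`

For `0 < p ≤ q ≤ 1`, every pointed `q`-metric space `M` (finite or infinite) and every subset `S`
containing the base point, the canonical map from `F_p(S)` to `F_p(M)` is an isomorphism onto its
image whose inverse has norm at most `(2 e) ^ (1 / q)`. In particular
`sup_n A_p^q(n) ≤ (2 e) ^ (1 / q) < ∞`.

Proof: the norm of `F_p(M)` is an infimum of costs of flows with a concave cost function, so cycle
cancelling reduces everything to flows supported by forests (`Y838.UB.A`). A forest has a random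
retraction onto the set of terminals which stretches each edge by at most `2 e` on average
(`Y838.UB.B`): cut the paths to the root at the points of a randomly shifted lattice of the
logarithmic length, and send each piece to a nearest terminal of its top. The expectation is taken
for the metric `d ^ q`, and Jensen's inequality gives the exponent `1 / q` (`Y838.UB.C`).
-/

set_option autoImplicit false

namespace Pool.Agent.Results.MP_31efb7_an.UniformFiniteBound

open Pool.Agent.H164R3.Amen

theorem result (p q : ℝ) (hp : 0 < p) (hpq : p ≤ q) (hq1 : q ≤ 1) :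
    (∀ (M : Type) (d : M → M → ℝ), IsRMetric q d → ∀ (o : M) (S : Set M) (ho : o ∈ S),
      am p d o S ho ≤ ENNReal.ofReal ((2 * Real.exp 1) ^ (1 / q))) ∧
    (⨆ n : ℕ, A p q n) ≤ ENNReal.ofReal ((2 * Real.exp 1) ^ (1 / q)) := by
  have h : ∀ (M : Type) (d : M → M → ℝ), IsRMetric q d → ∀ (o : M) (S : Set M) (ho : o ∈ S),
      am p d o S ho ≤ ENNReal.ofReal ((2 * Real.exp 1) ^ (1 / q)) :=
    fun M d hd o S ho => Pool.Agent.Y838.UB.am_le hp hpq hq1 hd o S ho
  refine ⟨h, iSup_le fun n => ?_⟩
  rw [A]
  exact iSup_le fun M => iSup_le fun _ => iSup_le fun d => iSup_le fun hd => iSup_le fun o =>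
    iSup_le fun S => iSup_le fun ho => iSup_le fun _ => h M d hd o S ho

end Pool.Agent.Results.MP_31efb7_an.UniformFiniteBound
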